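import Mathlib

/-! Product measures on the discrete cube and low-degree functions. -/

set_option autoImplicit false
set_option linter.unusedSectionVars false
set_option linter.unusedVariables false

namespace Pool.Agent.Lib.MP_66cd2e_lc

open Finset

variable {V : Type} [Fintype V] [DecidableEq V]

/-- value of a bit -/
def val (b : Bool) : ℝ := if b then 1 else 0

/-- weight of a point of the cube -/
noncomputable def wt (ρ : V → ℝ) (x : V → Bool) : ℝ := ∏ v, (if x v then ρ v else 1 - ρ v)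

/-- expectation -/
noncomputable def Ex (ρ : V → ℝ) (f : (V → Bool) → ℝ) : ℝ := ∑ x, wt ρ x * f x

/-- centred characters -/
noncomputable def chi (ρ : V → ℝ) (I : Finset V) (x : V → Bool) : ℝ :=
  ∏ v ∈ I, (val (x v) - ρ v)

/-- square norms of the characters -/
noncomputable def qq (ρ : V → ℝ) (I : Finset V) : ℝ := ∏ v ∈ I, (ρ v * (1 - ρ v))

theorem Ex_add (ρ : V → ℝ) (f g : (V → Bool) → ℝ) :
    Ex ρ (fun x => f x + g x) = Ex ρ f + Ex ρ g := by
  simp [Ex, mul_add, Finset.sum_add_distrib]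

theorem Ex_mul (ρ : V → ℝ) (c : ℝ) (f : (V → Bool) → ℝ) :
    Ex ρ (fun x => c * f x) = c * Ex ρ f := by
  unfold Ex
  rw [Finset.mul_sum]
  exact Finset.sum_congr rfl fun x _ => by ring

theorem Ex_sum {ι : Type} (ρ : V → ℝ) (s : Finset ι) (f : ι → (V → Bool) → ℝ) :
    Ex ρ (fun x => ∑ i ∈ s, f i x) = ∑ i ∈ s, Ex ρ (f i) := by
  unfold Ex
  rw [Finset.sum_comm]
  exact Finset.sum_congr rfl fun x _ => by rw [Finset.mul_sum]

theorem Ex_prod (ρ : V → ℝ) (h : V → Bool → ℝ) :
    Ex ρ (fun x => ∏ v, h v (x v)) = ∏ v, (ρ v * h v true + (1 - ρ v) * h v false) := by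
  unfold Ex wt
  have : ∀ v, (ρ v * h v true + (1 - ρ v) * h v false)
      = ∑ b : Bool, (if b then ρ v else 1 - ρ v) * h v b := by
    intro v
    simp
  simp_rw [this, Finset.prod_univ_sum, Fintype.piFinset_univ, ← Finset.prod_mul_distrib]

theorem Ex_one (ρ : V → ℝ) : Ex ρ (fun _ => 1) = 1 := by
  have := Ex_prod ρ (fun _ _ => 1)
  simpa using this

theorem chi_eq (ρ : V → ℝ) (I : Finset V) (x : V → Bool) :
    chi ρ I x = ∏ v, (if v ∈ I then (val (x v) - ρ v) else 1) := by
  unfold chi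
  rw [Finset.prod_ite_mem, Finset.univ_inter]

theorem Ex_chi_chi (ρ : V → ℝ) (I J : Finset V) :
    Ex ρ (fun x => chi ρ I x * chi ρ J x) = if I = J then qq ρ I else 0 := by
  have h1 : ∀ x, chi ρ I x * chi ρ J x = ∏ v, ((if v ∈ I then (val (x v) - ρ v) else 1) *
      (if v ∈ J then (val (x v) - ρ v) else 1)) := by
    intro x
    rw [chi_eq, chi_eq, Finset.prod_mul_distrib]
  simp_rw [h1]
  rw [Ex_prod ρ (fun v b => (if v ∈ I then (val b - ρ v) else 1) *
      (if v ∈ J then (val b - ρ v) else 1))]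
  have h2 : ∀ v, (ρ v * ((if v ∈ I then (val true - ρ v) else 1) *
      (if v ∈ J then (val true - ρ v) else 1)) +
      (1 - ρ v) * ((if v ∈ I then (val false - ρ v) else 1) *
      (if v ∈ J then (val false - ρ v) else 1))) =
      if v ∈ I then (if v ∈ J then ρ v * (1 - ρ v) else 0) else (if v ∈ J then 0 else 1) := by
    intro v
    simp only [val]
    by_cases hI : v ∈ I <;> by_cases hJ : v ∈ J <;> simp [hI, hJ] <;> ring
  simp_rw [h2]
  by_cases hIJ : I = J
  · subst hIJ
    simp only [if_true]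
    unfold qq
    rw [← Finset.univ_inter I, ← Finset.prod_ite_mem]
    refine Finset.prod_congr rfl fun v _ => ?_
    by_cases hI : v ∈ I <;> simp [hI]
  · rw [if_neg hIJ]
    have : ∃ v, ¬ (v ∈ I ↔ v ∈ J) := by
      by_contra hcon
      push Not at hcon
      exact hIJ (Finset.ext hcon)
    obtain ⟨v, hv⟩ := this
    apply Finset.prod_eq_zero (Finset.mem_univ v)
    by_cases hI : v ∈ I <;> by_cases hJ : v ∈ J <;> simp_all

/-- a function given by its coefficients -/
noncomputable def FF (ρ : V → ℝ) (c : Finset V → ℝ) (x : V → Bool) : ℝ := ∑ I, c I * chi ρ I x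

theorem parseval (ρ : V → ℝ) (c : Finset V → ℝ) :
    Ex ρ (fun x => FF ρ c x ^ 2) = ∑ I, c I ^ 2 * qq ρ I := by
  have h1 : ∀ x, FF ρ c x ^ 2 = ∑ I, ∑ J, (c I * c J) * (chi ρ I x * chi ρ J x) := by
    intro x
    unfold FF
    rw [sq, Finset.sum_mul_sum]
    exact Finset.sum_congr rfl fun I _ => Finset.sum_congr rfl fun J _ => by ring
  simp_rw [h1]
  rw [Ex_sum]
  refine Finset.sum_congr rfl fun I _ => ?_
  rw [Ex_sum]
  simp_rw [Ex_mul, Ex_chi_chi]
  simp [sq]

theorem wt_update (ρ : V → ℝ) (x : V → Bool) (u : V) (b : Bool) :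
    wt ρ (Function.update x u b) =
      (if b then ρ u else 1 - ρ u) * ∏ v ∈ univ.erase u, (if x v then ρ v else 1 - ρ v) := by
  unfold wt
  rw [← Finset.mul_prod_erase univ _ (Finset.mem_univ u)]
  congr 1
  · simp
  · refine Finset.prod_congr rfl fun v hv => ?_
    rw [Function.update_of_ne (Finset.ne_of_mem_erase hv)]

theorem wt_split (ρ : V → ℝ) (x : V → Bool) (u : V) :
    wt ρ x = (if x u then ρ u else 1 - ρ u) *
      ∏ v ∈ univ.erase u, (if x v then ρ v else 1 - ρ v) := by
  have := wt_update ρ x u (x u)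
  rwa [Function.update_eq_self] at this

theorem Ex_val_mul (ρ : V → ℝ) (u : V) (F : (V → Bool) → ℝ) :
    Ex ρ (fun x => val (x u) * F x) = ρ u * Ex ρ (fun x => F (Function.update x u true)) := by
  -- pair x with its flip at u
  have hflip : ∀ G : (V → Bool) → ℝ, ∑ x, G x =
      ∑ x, G (Function.update x u (!(x u))) := by
    intro G
    refine (Finset.sum_bij' (fun x _ => Function.update x u (!(x u)))
      (fun x _ => Function.update x u (!(x u))) ?_ ?_ ?_ ?_ ?_)
    · intros; simp
    · intros; simp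
    · intro x _
      funext v
      by_cases hv : v = u
      · subst hv; simp
      · simp [hv]
    · intro x _
      funext v
      by_cases hv : v = u
      · subst hv; simp
      · simp [hv]
    · intro x _
      congr 1
      funext v
      by_cases hv : v = u
      · subst hv; simp
      · simp [hv]
  unfold Ex
  have e1 : 2 * ∑ x, wt ρ x * (val (x u) * F x) =
      2 * (ρ u * ∑ x, wt ρ x * F (Function.update x u true)) := by
    have l1 : 2 * ∑ x, wt ρ x * (val (x u) * F x) =
        ∑ x, (wt ρ x * (val (x u) * F x) +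
          wt ρ (Function.update x u (!(x u))) *
          (val ((Function.update x u (!(x u))) u) * F (Function.update x u (!(x u))))) := by
      rw [Finset.sum_add_distrib, ← hflip (fun x => wt ρ x * (val (x u) * F x))]
      ring
    have l2 : 2 * (ρ u * ∑ x, wt ρ x * F (Function.update x u true)) =
        ∑ x, ρ u * (wt ρ x * F (Function.update x u true) +
          wt ρ (Function.update x u (!(x u))) *
          F (Function.update (Function.update x u (!(x u))) u true)) := by
      rw [← Finset.mul_sum, Finset.sum_add_distrib,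
        ← hflip (fun x => wt ρ x * F (Function.update x u true))]
      ring
    rw [l1, l2]
    refine Finset.sum_congr rfl fun x _ => ?_
    have hx : Function.update x u (x u) = x := Function.update_eq_self u x
    cases hxu : x u
    · have : Function.update x u false = x := by rw [← hxu]; exact hx
      simp only [Bool.not_false, Function.update_self, Function.update_idem, val]
      rw [wt_split ρ x u, wt_update ρ x u true, hxu]
      simp
      ring
    · have : Function.update x u true = x := by rw [← hxu]; exact hx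
      simp only [Bool.not_true, Function.update_self, Function.update_idem, val]
      rw [wt_split ρ x u, wt_update ρ x u false, hxu, this]
      simp
      ring
  linarith

theorem chi_update_notMem (ρ : V → ℝ) (I : Finset V) (u : V) (hu : u ∉ I) (x : V → Bool)
    (b : Bool) : chi ρ I (Function.update x u b) = chi ρ I x := by
  unfold chi
  refine Finset.prod_congr rfl fun v hv => ?_
  rw [Function.update_of_ne]
  rintro rfl
  exact hu hv

theorem chi_insert (ρ : V → ℝ) (I : Finset V) (u : V) (hu : u ∉ I) (x : V → Bool) :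
    chi ρ (insert u I) x = (val (x u) - ρ u) * chi ρ I x := by
  unfold chi
  rw [Finset.prod_insert hu]

theorem qq_insert (ρ : V → ℝ) (I : Finset V) (u : V) (hu : u ∉ I) :
    qq ρ (insert u I) = (ρ u * (1 - ρ u)) * qq ρ I := by
  unfold qq
  rw [Finset.prod_insert hu]

theorem sum_split (u : V) (g : Finset V → ℝ) :
    ∑ I, g I = ∑ I ∈ (univ.erase u).powerset, (g I + g (insert u I)) := by
  have h := Finset.sum_powerset_insert (f := g) (Finset.notMem_erase u (univ : Finset V))
  rw [Finset.insert_erase (Finset.mem_univ u), Finset.powerset_univ] at h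
  rw [h, Finset.sum_add_distrib]

theorem notMem_of_powerset_erase {u : V} {I : Finset V} (hI : I ∈ (univ.erase u).powerset) :
    u ∉ I := by
  intro h
  exact Finset.notMem_erase u univ ((Finset.mem_powerset.1 hI) h)

/-- coefficients after setting `x u = 1` -/
noncomputable def cu (ρ : V → ℝ) (c : Finset V → ℝ) (u : V) (I : Finset V) : ℝ :=
  if u ∈ I then 0 else c I + (1 - ρ u) * c (insert u I)

theorem FF_update (ρ : V → ℝ) (c : Finset V → ℝ) (u : V) (x : V → Bool) :
    FF ρ c (Function.update x u true) = FF ρ (cu ρ c u) x := by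
  unfold FF
  rw [sum_split u, sum_split u]
  refine Finset.sum_congr rfl fun I hI => ?_
  have hu := notMem_of_powerset_erase hI
  rw [chi_update_notMem ρ I u hu, chi_insert ρ I u hu, chi_update_notMem ρ I u hu]
  simp only [Function.update_self, cu, hu, if_false, Finset.mem_insert_self, if_true, val]
  ring

theorem Ex_val_sq (ρ : V → ℝ) (c : Finset V → ℝ) (u : V) :
    Ex ρ (fun x => val (x u) * FF ρ c x ^ 2) =
      ∑ I ∈ (univ.erase u).powerset, ρ u * (c I + (1 - ρ u) * c (insert u I)) ^ 2 * qq ρ I := by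
  rw [Ex_val_mul ρ u (fun x => FF ρ c x ^ 2)]
  simp_rw [FF_update]
  rw [parseval, sum_split u, Finset.mul_sum]
  refine Finset.sum_congr rfl fun I hI => ?_
  have hu := notMem_of_powerset_erase hI
  simp only [cu, hu, if_false, Finset.mem_insert_self, if_true]
  ring

/-- the variance in direction `u` -/
noncomputable def Var (ρ : V → ℝ) (c : Finset V → ℝ) (u : V) : ℝ :=
  ∑ I ∈ (univ.erase u).powerset, (ρ u * (1 - ρ u)) * c (insert u I) ^ 2 * qq ρ I

theorem norm_split (ρ : V → ℝ) (c : Finset V → ℝ) (u : V) :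
    Ex ρ (fun x => FF ρ c x ^ 2) =
      ∑ I ∈ (univ.erase u).powerset, (c I ^ 2 * qq ρ I +
        (ρ u * (1 - ρ u)) * c (insert u I) ^ 2 * qq ρ I) := by
  rw [parseval, sum_split u]
  refine Finset.sum_congr rfl fun I hI => ?_
  have hu := notMem_of_powerset_erase hI
  rw [qq_insert ρ I u hu]
  ring

variable {ρ : V → ℝ}

theorem qq_nonneg (h0 : ∀ v, 0 ≤ ρ v) (h1 : ∀ v, ρ v ≤ 1) (I : Finset V) : 0 ≤ qq ρ I :=
  Finset.prod_nonneg fun v _ => mul_nonneg (h0 v) (by linarith [h1 v])

theorem wt_nonneg (h0 : ∀ v, 0 ≤ ρ v) (h1 : ∀ v, ρ v ≤ 1) (x : V → Bool) : 0 ≤ wt ρ x :=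
  Finset.prod_nonneg fun v _ => by
    split_ifs
    · exact h0 v
    · linarith [h1 v]

theorem Ex_nonneg (h0 : ∀ v, 0 ≤ ρ v) (h1 : ∀ v, ρ v ≤ 1) (f : (V → Bool) → ℝ)
    (hf : ∀ x, wt ρ x ≠ 0 → 0 ≤ f x) : 0 ≤ Ex ρ f := by
  refine Finset.sum_nonneg fun x _ => ?_
  by_cases hx : wt ρ x = 0
  · rw [hx, zero_mul]
  · exact mul_nonneg (wt_nonneg h0 h1 x) (hf x hx)

/-- lower bound in one direction -/
theorem lower_one (h0 : ∀ v, 0 ≤ ρ v) (h1 : ∀ v, ρ v ≤ 1) (c : Finset V → ℝ) (u : V)
    (t : ℝ) (ht0 : 0 < t) (ht1 : t ≤ 1) :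
    t * Ex ρ (fun x => val (x u) * FF ρ c x ^ 2) ≥
      t * (1 - t) * ρ u * Ex ρ (fun x => FF ρ c x ^ 2) - (1 - t) * Var ρ c u := by
  rw [Ex_val_sq, norm_split ρ c u, Var, Finset.mul_sum, Finset.mul_sum, Finset.mul_sum,
    ← Finset.sum_sub_distrib]
  refine Finset.sum_le_sum fun I _ => ?_
  have hq := qq_nonneg h0 h1 I
  have hr0 := h0 u
  have hr1 := h1 u
  set r := ρ u
  set a := c I
  set b := c (insert u I)
  set Q := qq ρ I
  -- divide by r Q
  have key : t * (1 - t) * (a ^ 2 + (r * (1 - r)) * b ^ 2) - (1 - t) * ((1 - r) * b ^ 2) ≤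
      t * (a + (1 - r) * b) ^ 2 := by
    have h2 : 0 ≤ (t * a + (1 - r) * b) ^ 2 := sq_nonneg _
    have h3 : 0 ≤ b ^ 2 := sq_nonneg _
    have h4 : 0 ≤ (1 - t) * (1 - r) * (r * (1 - t)) * b ^ 2 := by
      have : 0 ≤ (1 - t) := by linarith
      have : 0 ≤ (1 - r) := by linarith
      positivity
    nlinarith [h2, h4]
  have hrQ : 0 ≤ r * Q := mul_nonneg hr0 hq
  nlinarith [mul_le_mul_of_nonneg_left key hrQ]

/-- upper bound in one direction -/
theorem upper_one (h0 : ∀ v, 0 ≤ ρ v) (h1 : ∀ v, ρ v ≤ 1) (c : Finset V → ℝ) (u : V)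
    (t : ℝ) (ht0 : 0 < t) :
    t * Ex ρ (fun x => val (x u) * FF ρ c x ^ 2) ≤
      t * (1 + t) * ρ u * Ex ρ (fun x => FF ρ c x ^ 2) + (1 + t) * Var ρ c u := by
  rw [Ex_val_sq, norm_split ρ c u, Var, Finset.mul_sum, Finset.mul_sum, Finset.mul_sum,
    ← Finset.sum_add_distrib]
  refine Finset.sum_le_sum fun I _ => ?_
  have hq := qq_nonneg h0 h1 I
  have hr0 := h0 u
  have hr1 := h1 u
  set r := ρ u
  set a := c I
  set b := c (insert u I)
  set Q := qq ρ I
  have key : t * (a + (1 - r) * b) ^ 2 ≤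
      t * (1 + t) * (a ^ 2 + (r * (1 - r)) * b ^ 2) + (1 + t) * ((1 - r) * b ^ 2) := by
    have h2 : 0 ≤ (t * a - (1 - r) * b) ^ 2 := sq_nonneg _
    have h3 : 0 ≤ b ^ 2 := sq_nonneg _
    have hr : 0 ≤ 1 - r := by linarith
    have h4 : 0 ≤ (1 + t) * (1 - r) * (r + t * r) * b ^ 2 := by positivity
    nlinarith [h2, h4]
  have hrQ : 0 ≤ r * Q := mul_nonneg hr0 hq
  nlinarith [mul_le_mul_of_nonneg_left key hrQ]

theorem Var_eq (c : Finset V → ℝ) (u : V) :
    Var ρ c u = ∑ I, if u ∈ I then c I ^ 2 * qq ρ I else 0 := by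
  rw [sum_split u, Var]
  refine Finset.sum_congr rfl fun I hI => ?_
  have hu := notMem_of_powerset_erase hI
  rw [qq_insert ρ I u hu]
  simp only [hu, if_false, Finset.mem_insert_self, if_true]
  ring

theorem Var_nonneg (h0 : ∀ v, 0 ≤ ρ v) (h1 : ∀ v, ρ v ≤ 1) (c : Finset V → ℝ) (u : V) :
    0 ≤ Var ρ c u := by
  rw [Var_eq]
  refine Finset.sum_nonneg fun I _ => ?_
  split_ifs
  · exact mul_nonneg (sq_nonneg _) (qq_nonneg h0 h1 I)
  · exact le_refl 0

/-- total influence bound -/
theorem sum_Var_le (h0 : ∀ v, 0 ≤ ρ v) (h1 : ∀ v, ρ v ≤ 1) (c : Finset V → ℝ) (d : ℕ)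
    (hc : ∀ I : Finset V, d < I.card → c I = 0) (A : Finset V) :
    ∑ u ∈ A, Var ρ c u ≤ d * Ex ρ (fun x => FF ρ c x ^ 2) := by
  have hA : ∑ u ∈ A, Var ρ c u ≤ ∑ u, Var ρ c u :=
    Finset.sum_le_sum_of_subset_of_nonneg (Finset.subset_univ A)
      fun u _ _ => Var_nonneg h0 h1 c u
  refine hA.trans ?_
  simp_rw [Var_eq]
  rw [Finset.sum_comm, parseval, Finset.mul_sum]
  refine Finset.sum_le_sum fun I _ => ?_
  rw [Finset.sum_ite_mem, Finset.univ_inter, Finset.sum_const, nsmul_eq_mul]
  by_cases hI : d < I.card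
  · rw [hc I hI]; simp
  · have : (I.card : ℝ) ≤ d := by exact_mod_cast (not_lt.1 hI)
    exact mul_le_mul_of_nonneg_right this (mul_nonneg (sq_nonneg _) (qq_nonneg h0 h1 I))

theorem norm_nonneg' (h0 : ∀ v, 0 ≤ ρ v) (h1 : ∀ v, ρ v ≤ 1) (c : Finset V → ℝ) :
    0 ≤ Ex ρ (fun x => FF ρ c x ^ 2) := Ex_nonneg h0 h1 _ fun _ _ => sq_nonneg _

/-- lower bound for the number of ones in `A` against low-degree squares -/
theorem lower_bound (h0 : ∀ v, 0 ≤ ρ v) (h1 : ∀ v, ρ v ≤ 1) (c : Finset V → ℝ) (d : ℕ)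
    (hc : ∀ I : Finset V, d < I.card → c I = 0) (A : Finset V)
    (hA : (Real.sqrt d + 1) ^ 2 ≤ ∑ u ∈ A, ρ u) :
    Ex ρ (fun x => FF ρ c x ^ 2) ≤ Ex ρ (fun x => (∑ u ∈ A, val (x u)) * FF ρ c x ^ 2) := by
  set N := Ex ρ (fun x => FF ρ c x ^ 2) with hN
  set μ := ∑ u ∈ A, ρ u with hμ
  have hN0 : 0 ≤ N := norm_nonneg' h0 h1 c
  set B := Ex ρ (fun x => (∑ u ∈ A, val (x u)) * FF ρ c x ^ 2) with hB
  have hBsum : B = ∑ u ∈ A, Ex ρ (fun x => val (x u) * FF ρ c x ^ 2) := by
    rw [hB, ← Ex_sum]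
    congr 1
    funext x
    rw [Finset.sum_mul]
  have main : ∀ t : ℝ, 0 < t → t ≤ 1 → t * (1 - t) * μ * N - (1 - t) * (d * N) ≤ t * B := by
    intro t ht0 ht1
    have hB' : t * B = ∑ u ∈ A, t * Ex ρ (fun x => val (x u) * FF ρ c x ^ 2) := by
      rw [hBsum, Finset.mul_sum]
    have h3 : ∑ u ∈ A, (t * (1 - t) * ρ u * N - (1 - t) * Var ρ c u) ≤
        ∑ u ∈ A, t * Ex ρ (fun x => val (x u) * FF ρ c x ^ 2) :=
      Finset.sum_le_sum fun u _ => lower_one h0 h1 c u t ht0 ht1
    rw [← hB'] at h3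
    refine le_trans ?_ h3
    rw [Finset.sum_sub_distrib, ← Finset.sum_mul, ← Finset.mul_sum, ← Finset.mul_sum]
    have h4 := sum_Var_le h0 h1 c d hc A
    have h5 : (1 - t) * ∑ u ∈ A, Var ρ c u ≤ (1 - t) * (d * N) :=
      mul_le_mul_of_nonneg_left h4 (by linarith)
    linarith
  rcases Nat.eq_zero_or_pos d with hd | hd
  · subst hd
    have hμ1 : 1 ≤ μ := by simpa using hA
    -- N ≤ B by letting t tend to 0
    have h6 : ∀ t : ℝ, 0 < t → t ≤ 1 → (1 - t) * N ≤ B := by
      intro t ht0 ht1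
      have h7 := main t ht0 ht1
      simp only [Nat.cast_zero, zero_mul, mul_zero, sub_zero] at h7
      have h8 : t * ((1 - t) * (μ * N)) ≤ t * B := by linarith
      have h9 : (1 - t) * (μ * N) ≤ B := le_of_mul_le_mul_left h8 ht0
      have h10 : N ≤ μ * N := by nlinarith
      have h11 : (1 - t) * N ≤ (1 - t) * (μ * N) :=
        mul_le_mul_of_nonneg_left h10 (by linarith)
      linarith
    by_contra hcon
    push Not at hcon
    have hNpos : 0 < N := by
      have := h6 1 one_pos le_rfl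
      simp at this
      linarith
    have h12 := h6 (min 1 ((N - B) / (2 * N))) (lt_min one_pos (by
      apply div_pos <;> linarith)) (min_le_left _ _)
    have h13 : min 1 ((N - B) / (2 * N)) * N ≤ (N - B) / 2 := by
      have : min 1 ((N - B) / (2 * N)) * N ≤ (N - B) / (2 * N) * N :=
        mul_le_mul_of_nonneg_right (min_le_right _ _) hN0
      have h14 : (N - B) / (2 * N) * N = (N - B) / 2 := by
        field_simp
      linarith
    nlinarith
  · set s := Real.sqrt d with hs
    have hdpos : (0 : ℝ) < d := by exact_mod_cast hd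
    have hs0 : 0 < s := Real.sqrt_pos.2 hdpos
    have hss : s * s = d := Real.mul_self_sqrt hdpos.le
    have h7 := main (s / (s + 1)) (by positivity) (by
      rw [div_le_one (by positivity)]; linarith)
    have h8 : 1 - s / (s + 1) = 1 / (s + 1) := by field_simp; ring
    rw [h8, ← hss] at h7
    have hs1 : 0 < s + 1 := by linarith
    have h9 : s / (s + 1) * (1 / (s + 1)) * μ * N - 1 / (s + 1) * (s * s * N) =
        (s / (s + 1)) * ((1 / (s + 1)) * (μ * N) - s * N) := by
      field_simp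
    rw [h9] at h7
    have h10 := le_of_mul_le_mul_left h7 (by positivity)
    have h11 : (s + 1) * N ≤ 1 / (s + 1) * (μ * N) := by
      have : (s + 1) ^ 2 * N ≤ μ * N := mul_le_mul_of_nonneg_right hA hN0
      rw [div_mul_eq_mul_div, one_mul, le_div_iff₀ hs1]
      nlinarith
    linarith

/-- upper bound for the number of ones against low-degree squares -/
theorem upper_bound (h0 : ∀ v, 0 ≤ ρ v) (h1 : ∀ v, ρ v ≤ 1) (c : Finset V → ℝ) (d : ℕ)
    (hc : ∀ I : Finset V, d < I.card → c I = 0) (m : ℝ) (hm : 0 ≤ m)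
    (hA : ∑ u, ρ u ≤ m ^ 2) :
    Ex ρ (fun x => (∑ u, val (x u)) * FF ρ c x ^ 2) ≤
      (m + Real.sqrt d) ^ 2 * Ex ρ (fun x => FF ρ c x ^ 2) := by
  set N := Ex ρ (fun x => FF ρ c x ^ 2) with hN
  set μ := ∑ u, ρ u with hμ
  have hN0 : 0 ≤ N := norm_nonneg' h0 h1 c
  have hμ0 : 0 ≤ μ := Finset.sum_nonneg fun u _ => h0 u
  set B := Ex ρ (fun x => (∑ u, val (x u)) * FF ρ c x ^ 2) with hB
  have hBsum : B = ∑ u, Ex ρ (fun x => val (x u) * FF ρ c x ^ 2) := by
    rw [hB, ← Ex_sum]
    congr 1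
    funext x
    rw [Finset.sum_mul]
  have main : ∀ t : ℝ, 0 < t → t * B ≤ t * (1 + t) * μ * N + (1 + t) * (d * N) := by
    intro t ht0
    have hB' : t * B = ∑ u, t * Ex ρ (fun x => val (x u) * FF ρ c x ^ 2) := by
      rw [hBsum, Finset.mul_sum]
    have h3 : ∑ u, t * Ex ρ (fun x => val (x u) * FF ρ c x ^ 2) ≤
        ∑ u, (t * (1 + t) * ρ u * N + (1 + t) * Var ρ c u) :=
      Finset.sum_le_sum fun u _ => upper_one h0 h1 c u t ht0
    rw [← hB'] at h3
    refine h3.trans ?_
    rw [Finset.sum_add_distrib, ← Finset.sum_mul, ← Finset.mul_sum, ← Finset.mul_sum]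
    have h4 := sum_Var_le h0 h1 c d hc univ
    have h5 : (1 + t) * ∑ u, Var ρ c u ≤ (1 + t) * (d * N) :=
      mul_le_mul_of_nonneg_left h4 (by linarith)
    linarith
  rcases Nat.eq_zero_or_pos d with hd | hd
  · subst hd
    have h6 : ∀ t : ℝ, 0 < t → B ≤ (1 + t) * (μ * N) := by
      intro t ht0
      have h7 := main t ht0
      simp only [Nat.cast_zero, zero_mul, mul_zero, add_zero] at h7
      have h8 : t * B ≤ t * ((1 + t) * (μ * N)) := by linarith
      exact le_of_mul_le_mul_left h8 ht0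
    have h9 : B ≤ μ * N := by
      refine le_of_forall_pos_le_add fun ε hε => ?_
      have hμN : 0 ≤ μ * N := mul_nonneg hμ0 hN0
      have := h6 (ε / (μ * N + 1)) (by positivity)
      have h10 : ε / (μ * N + 1) * (μ * N) ≤ ε := by
        rw [div_mul_eq_mul_div, div_le_iff₀ (by positivity)]
        nlinarith
      nlinarith
    simp only [Nat.cast_zero, Real.sqrt_zero, add_zero]
    exact h9.trans (mul_le_mul_of_nonneg_right hA hN0)
  · set s := Real.sqrt d with hs
    have hdpos : (0 : ℝ) < d := by exact_mod_cast hd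
    have hs0 : 0 < s := Real.sqrt_pos.2 hdpos
    have hss : s * s = d := Real.mul_self_sqrt hdpos.le
    rcases hm.eq_or_lt with hm0 | hm0
    · -- m = 0: all weights vanish
      have hμ00 : μ = 0 := le_antisymm (by rw [← hm0] at hA; simpa using hA) hμ0
      -- let t → ∞ is not needed: choose t = 1/ε; use directly B ≤ (1+1/t) d N
      have h6 : ∀ t : ℝ, 0 < t → B ≤ (1 + t) * (d * N) := by
        intro t ht0
        have h7 := main (1 / t) (by positivity)
        rw [hμ00] at h7
        have h8 : 1 / t * B ≤ 1 / t * ((1 + t) * (d * N)) := by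
          have : 1 / t * (1 + 1 / t) * 0 * N + (1 + 1 / t) * (d * N) =
            1 / t * ((1 + t) * (d * N)) := by
            field_simp
            try ring
          linarith
        exact le_of_mul_le_mul_left h8 (by positivity)
      have h9 : B ≤ d * N := by
        refine le_of_forall_pos_le_add fun ε hε => ?_
        have hμN : 0 ≤ d * N := mul_nonneg hdpos.le hN0
        have := h6 (ε / (d * N + 1)) (by positivity)
        have h10 : ε / (d * N + 1) * (d * N) ≤ ε := by
          rw [div_mul_eq_mul_div, div_le_iff₀ (by positivity)]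
          nlinarith
        nlinarith
      rw [← hm0, zero_add, sq, hss]
      exact h9
    · have h7 := main (s / m) (by positivity)
      have h8 : s / m * (1 + s / m) * μ * N ≤ s / m * (1 + s / m) * m ^ 2 * N := by
        have : s / m * (1 + s / m) * μ ≤ s / m * (1 + s / m) * m ^ 2 :=
          mul_le_mul_of_nonneg_left hA (by positivity)
        exact mul_le_mul_of_nonneg_right this hN0
      have h9 : s / m * (1 + s / m) * m ^ 2 * N + (1 + s / m) * (d * N) =
          s / m * ((m + s) ^ 2 * N) := by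
        rw [← hss]
        field_simp
      have h10 : s / m * B ≤ s / m * ((m + s) ^ 2 * N) := by linarith
      exact le_of_mul_le_mul_left h10 (by positivity)

end Pool.Agent.Lib.MP_66cd2e_lc
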