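import Mathlib

/-! Tournaments, dominating sets and sum-of-squares refutations. -/

set_option autoImplicit false

namespace Pool.Agent.Lib.MP_66cd2e_lc

open Finset MvPolynomial

/-- A tournament on `V`: no loops, and exactly one of the arcs `u → v`, `v → u` for `u ≠ v`. -/
structure Tournament (V : Type) where
  /-- `arc u v`: the arc `u → v` is present -/
  arc : V → V → Prop
  irrefl : ∀ v, ¬ arc v v
  exactlyOne : ∀ u v, u ≠ v → (arc u v ↔ ¬ arc v u)

/-- Every vertex outside `S` has an in-neighbour in `S`. -/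
def IsDominating {V : Type} (T : Tournament V) (S : Finset V) : Prop :=
  ∀ w, w ∉ S → ∃ v ∈ S, T.arc v w

/-- The domination number: the least cardinality of a dominating set. -/
noncomputable def domNumber {V : Type} (T : Tournament V) : ℕ :=
  sInf {m : ℕ | ∃ S : Finset V, IsDominating T S ∧ S.card = m}

section
variable {V : Type} [Fintype V]

/-- A sum of squares of real polynomials of total degree at most `d`. -/
def IsSoS (d : ℕ) (σ : MvPolynomial V ℝ) : Prop :=
  ∃ l : List (MvPolynomial V ℝ), (∀ p ∈ l, p.totalDegree ≤ d) ∧ σ = (l.map fun p => p ^ 2).sum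

open Classical in
/-- The polynomial `x_w + ∑_{v → w} x_v - 1`; the constraint `≥ 0` says that `w` is dominated. -/
noncomputable def domPoly (T : Tournament V) (w : V) : MvPolynomial V ℝ :=
  (∑ v ∈ univ.filter (fun v => v = w ∨ T.arc v w), X v) - 1

/-- The polynomial `k - ∑ x_v`; the constraint `≥ 0` says that at most `k` vertices are used. -/
noncomputable def sizePoly (V : Type) [Fintype V] (k : ℕ) : MvPolynomial V ℝ :=
  C (k : ℝ) - ∑ v, X v

/-- A sum-of-squares (Positivstellensatz) refutation of degree `2 * d + 1` (that is, with squares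
of polynomials of degree at most `d` as multipliers of the inequalities) of the statement that `T`
has a dominating set with at most `k` vertices, i.e. of the system
`x_v ^ 2 = x_v` (all `v`), `k - ∑ x_v ≥ 0`, `x_w + ∑_{v → w} x_v - 1 ≥ 0` (all `w`). -/
def HasSoSRefutation (T : Tournament V) (k d : ℕ) : Prop :=
  ∃ (σ₀ τ : MvPolynomial V ℝ) (σ q : V → MvPolynomial V ℝ),
    IsSoS d σ₀ ∧ IsSoS d τ ∧ (∀ w, IsSoS d (σ w)) ∧
    (∀ v, (q v * (X v ^ 2 - X v)).totalDegree ≤ 2 * d + 1) ∧
    σ₀ + τ * sizePoly V k + ∑ w, σ w * domPoly T w + ∑ v, q v * (X v ^ 2 - X v) = -1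

end

end Pool.Agent.Lib.MP_66cd2e_lc
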