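import Pool.Agent.Lib.MP_66cd2e_lc.Defs
import Pool.Agent.Lib.MP_66cd2e_lc.Cube

/-! The lower bound: no low-degree sum-of-squares refutation. -/

set_option autoImplicit false
set_option linter.unusedSectionVars false

namespace Pool.Agent.Lib.MP_66cd2e_lc

open Finset MvPolynomial

variable {V : Type} [Fintype V] [DecidableEq V]

/-! ### Fractional domination -/

open Classical in
/-- the skew-symmetric matrix of the tournament -/
noncomputable def skew (T : Tournament V) (w v : V) : ℝ :=
  if T.arc v w then 1 else if T.arc w v then -1 else 0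

theorem skew_symm (T : Tournament V) (w v : V) : skew T w v = - skew T v w := by
  unfold skew
  by_cases hvw : v = w
  · subst hvw; simp [T.irrefl]
  · have h := T.exactlyOne v w hvw
    by_cases h1 : T.arc v w <;> by_cases h2 : T.arc w v <;> simp_all

theorem skew_quad (T : Tournament V) (g : V → ℝ) :
    ∑ w, g w * ∑ v, skew T w v * g v = 0 := by
  have h1 : ∑ w, g w * ∑ v, skew T w v * g v = ∑ w, ∑ v, g w * (skew T w v * g v) :=
    Finset.sum_congr rfl fun w _ => Finset.mul_sum _ _ _
  have h2 : ∑ w, ∑ v, g w * (skew T w v * g v) = - ∑ w, ∑ v, g w * (skew T w v * g v) := by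
    conv_lhs => rw [Finset.sum_comm]
    rw [← Finset.sum_neg_distrib]
    refine Finset.sum_congr rfl fun v _ => ?_
    rw [← Finset.sum_neg_distrib]
    refine Finset.sum_congr rfl fun w _ => ?_
    rw [skew_symm T w v]
    ring
  rw [h1]
  linarith

theorem exists_strategy [Nonempty V] (T : Tournament V) :
    ∃ y : V → ℝ, (∀ v, 0 ≤ y v) ∧ ∑ v, y v = 1 ∧ ∀ w, 0 ≤ ∑ v, skew T w v * y v := by
  classical
  by_contra hcon
  push Not at hcon
  let L : (V → ℝ) →ₗ[ℝ] (V → ℝ) :=
    { toFun := fun y w => ∑ v, skew T w v * y v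
      map_add' := by
        intro y z; funext w; simp [mul_add, Finset.sum_add_distrib]
      map_smul' := by
        intro a y; funext w
        simp only [Pi.smul_apply, smul_eq_mul, RingHom.id_apply, Finset.mul_sum]
        exact Finset.sum_congr rfl fun v _ => by ring }
  let K : Set (V → ℝ) := L '' (stdSimplex ℝ V)
  let P : Set (V → ℝ) := {z | ∀ w, 0 ≤ z w}
  have hLc : Continuous L := L.continuous_of_finiteDimensional
  have hKconv : Convex ℝ K := (convex_stdSimplex ℝ V).linear_image L
  have hKcomp : IsCompact K := (isCompact_stdSimplex ℝ V).image hLc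
  have hPconv : Convex ℝ P := by
    intro a ha b hb s t hs ht _ w
    simp only [Pi.add_apply, Pi.smul_apply, smul_eq_mul]
    exact add_nonneg (mul_nonneg hs (ha w)) (mul_nonneg ht (hb w))
  have hPclosed : IsClosed P := by
    have : P = ⋂ w, {z : V → ℝ | 0 ≤ z w} := by
      ext z; simp [P]
    rw [this]
    exact isClosed_iInter fun w => isClosed_le continuous_const (continuous_apply w)
  have hdisj : Disjoint K P := by
    rw [Set.disjoint_left]
    rintro z ⟨y, hy, rfl⟩ hz
    obtain ⟨w, hw⟩ := hcon y hy.1 hy.2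
    exact absurd (hz w) (not_le.2 hw)
  obtain ⟨f, a, b, hfa, hab, hfb⟩ :=
    geometric_hahn_banach_compact_closed hKconv hKcomp hPconv hPclosed hdisj
  have hb0 : b < 0 := by
    have := hfb 0 (fun w => le_refl _)
    simpa using this
  set g : V → ℝ := fun w => f (Pi.single w 1) with hg
  have hf : ∀ z : V → ℝ, f z = ∑ w, z w * g w := by
    intro z
    have : z = ∑ w, z w • (Pi.single w (1 : ℝ) : V → ℝ) := by
      funext v
      simp [Finset.sum_apply, Pi.single_apply]
    conv_lhs => rw [this]
    rw [map_sum]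
    simp [hg]
  have hg0 : ∀ w, 0 ≤ g w := by
    intro w
    by_contra hneg
    push Not at hneg
    have h1 := hfb ((b / g w) • (Pi.single w (1 : ℝ) : V → ℝ)) (by
      intro v
      by_cases hv : v = w
      · subst hv
        simp only [Pi.smul_apply, Pi.single_eq_same, smul_eq_mul, mul_one]
        exact (div_pos_of_neg_of_neg hb0 hneg).le
      · simp [hv])
    rw [map_smul, smul_eq_mul] at h1
    have h2 : b / g w * f (Pi.single w 1) = b := by
      change b / g w * g w = b
      exact div_mul_cancel₀ b hneg.ne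
    linarith
  set s := ∑ w, g w with hs
  have hs0 : 0 ≤ s := Finset.sum_nonneg fun w _ => hg0 w
  rcases hs0.eq_or_lt with hs1 | hs1
  · have hgz : ∀ w, g w = 0 := by
      intro w
      have := (Finset.sum_eq_zero_iff_of_nonneg (fun w _ => hg0 w)).1 hs1.symm w (Finset.mem_univ w)
      exact this
    obtain ⟨v0⟩ := (inferInstance : Nonempty V)
    have h3 := hfa (L (Pi.single v0 1)) ⟨_, single_mem_stdSimplex ℝ v0, rfl⟩
    rw [hf] at h3
    simp [hgz] at h3
    linarith
  · have hy : (fun w => g w / s) ∈ stdSimplex ℝ V := by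
      refine ⟨fun w => div_nonneg (hg0 w) hs0, ?_⟩
      rw [← Finset.sum_div]
      exact div_self hs1.ne'
    have h3 := hfa (L (fun w => g w / s)) ⟨_, hy, rfl⟩
    rw [hf] at h3
    have h4 : ∑ w, L (fun w => g w / s) w * g w = 0 := by
      have h5 := skew_quad T g
      have h6 : ∑ w, L (fun w => g w / s) w * g w =
          (∑ w, g w * ∑ v, skew T w v * g v) / s := by
        rw [Finset.sum_div]
        refine Finset.sum_congr rfl fun w _ => ?_
        change (∑ v, skew T w v * (g v / s)) * g w = _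
        rw [Finset.mul_sum, Finset.sum_mul, Finset.sum_div]
        exact Finset.sum_congr rfl fun v _ => by ring
      rw [h6, h5, zero_div]
    linarith

open Classical in
/-- closed in-neighbourhood -/
noncomputable def inN (T : Tournament V) (w : V) : Finset V :=
  univ.filter (fun v => v = w ∨ T.arc v w)

theorem mem_inN (T : Tournament V) (w v : V) : v ∈ inN T w ↔ v = w ∨ T.arc v w := by
  unfold inN
  simp

theorem exists_fractional (T : Tournament V) :
    ∃ y : V → ℝ, (∀ v, 0 ≤ y v) ∧ ∑ v, y v ≤ 1 ∧ ∀ w, 1 / 2 ≤ ∑ v ∈ inN T w, y v := by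
  classical
  rcases isEmpty_or_nonempty V with hV | hV
  · exact ⟨fun _ => 0, fun v => le_refl _, by simp, fun w => (hV.false w).elim⟩
  · obtain ⟨y, hy0, hy1, hy2⟩ := exists_strategy T
    refine ⟨y, hy0, hy1.le, fun w => ?_⟩
    have h2 := hy2 w
    have h3 : ∑ v, skew T w v * y v = 2 * ∑ v ∈ inN T w, y v - y w - ∑ v, y v := by
      have h4 : ∑ v ∈ inN T w, y v = ∑ v, if (v = w ∨ T.arc v w) then y v else 0 := by
        rw [inN, Finset.sum_filter]
      have h5 : y w = ∑ v, if v = w then y v else 0 := by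
        simp
      rw [h4]
      conv_rhs => rw [h5]
      rw [Finset.mul_sum, ← Finset.sum_sub_distrib, ← Finset.sum_sub_distrib]
      refine Finset.sum_congr rfl fun v _ => ?_
      unfold skew
      by_cases hvw : v = w
      · subst hvw; simp [T.irrefl]; ring
      · have h := T.exactlyOne v w hvw
        by_cases h1 : T.arc v w
        · have : ¬ T.arc w v := by
            intro h'
            have := (T.exactlyOne w v (Ne.symm hvw)).1 h'
            exact this h1
          simp [hvw, h1]; ring
        · have : T.arc w v := by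
            by_contra h'
            exact h1 (h.2 h')
          simp [hvw, h1, this]
    rw [h3, hy1] at h2
    have := hy0 w
    linarith

/-! ### Polynomials on the cube -/

/-- evaluation at a point of the cube -/
noncomputable def ev (x : V → Bool) : MvPolynomial V ℝ →+* ℝ := eval (fun v => val (x v))

theorem val_pow (b : Bool) (n : ℕ) (hn : n ≠ 0) : val b ^ n = val b := by
  cases b <;> simp [val, hn]

theorem ev_low (ρ : V → ℝ) (p : MvPolynomial V ℝ) (d : ℕ) (hp : p.totalDegree ≤ d) :
    ∃ c : Finset V → ℝ, (∀ I : Finset V, d < I.card → c I = 0) ∧ ∀ x, ev x p = FF ρ c x := by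
  classical
  refine ⟨fun J => ∑ m ∈ p.support, p.coeff m *
    (if J ⊆ m.support then ∏ v ∈ m.support \ J, ρ v else 0), ?_, ?_⟩
  · intro J hJ
    refine Finset.sum_eq_zero fun m hm => ?_
    have h1 : m.support.card ≤ d := by
      have h2 : m.support.card ≤ m.sum fun _ e => e := by
        rw [Finsupp.sum, Finset.card_eq_sum_ones]
        refine Finset.sum_le_sum fun v hv => ?_
        exact Nat.one_le_iff_ne_zero.2 (Finsupp.mem_support_iff.1 hv)
      exact h2.trans ((le_totalDegree hm).trans hp)
    rw [if_neg]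
    · simp
    · intro h
      exact absurd (Finset.card_le_card h) (by omega)
  · intro x
    have h1 : ev x p = ∑ m ∈ p.support, p.coeff m * ∏ v ∈ m.support, val (x v) := by
      unfold ev
      rw [eval_eq]
      refine Finset.sum_congr rfl fun m _ => ?_
      congr 1
      refine Finset.prod_congr rfl fun v hv => ?_
      exact val_pow _ _ (Finsupp.mem_support_iff.1 hv)
    rw [h1]
    unfold FF
    simp_rw [Finset.sum_mul]
    rw [Finset.sum_comm]
    refine Finset.sum_congr rfl fun m _ => ?_
    have h2 : ∏ v ∈ m.support, val (x v) = ∏ v ∈ m.support, ((val (x v) - ρ v) + ρ v) :=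
      Finset.prod_congr rfl fun v _ => by ring
    rw [h2, Finset.prod_add, Finset.mul_sum]
    have h3 : ∑ J : Finset V, p.coeff m * (if J ⊆ m.support then ∏ v ∈ m.support \ J, ρ v else 0) *
        chi ρ J x = ∑ J ∈ m.support.powerset, p.coeff m *
        (∏ v ∈ m.support \ J, ρ v) * chi ρ J x := by
      rw [← Finset.powerset_univ]
      symm
      refine Finset.sum_subset_zero_on_sdiff (Finset.powerset_mono.2 (Finset.subset_univ _)) ?_ ?_
      · intro J hJ
        rw [Finset.mem_sdiff] at hJ
        rw [if_neg (fun h => hJ.2 (Finset.mem_powerset.2 h))]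
        simp
      · intro J hJ
        rw [if_pos (Finset.mem_powerset.1 hJ)]
    rw [h3]
    refine Finset.sum_congr rfl fun J _ => ?_
    unfold chi
    ring

/-- positivity against all squares of degree at most `d` extends to sums of squares -/
theorem IsSoS_pos (ρ : V → ℝ) (d : ℕ) (g : (V → Bool) → ℝ)
    (hg : ∀ c : Finset V → ℝ, (∀ I : Finset V, d < I.card → c I = 0) →
      0 ≤ Ex ρ (fun x => g x * FF ρ c x ^ 2))
    (σ : MvPolynomial V ℝ) (hσ : IsSoS d σ) : 0 ≤ Ex ρ (fun x => ev x σ * g x) := by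
  obtain ⟨l, hl, rfl⟩ := hσ
  induction l with
  | nil => simp [Ex]
  | cons p l ih =>
    have hp : p.totalDegree ≤ d := hl p (by simp)
    obtain ⟨c, hc, hcx⟩ := ev_low ρ p d hp
    have h1 := hg c hc
    have h2 := ih (fun q hq => hl q (by simp [hq]))
    have h3 : Ex ρ (fun x => ev x ((List.map (fun p => p ^ 2) (p :: l)).sum) * g x) =
        Ex ρ (fun x => g x * FF ρ c x ^ 2) +
        Ex ρ (fun x => ev x ((List.map (fun p => p ^ 2) l).sum) * g x) := by
      rw [← Ex_add]
      congr 1
      funext x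
      rw [List.map_cons, List.sum_cons, map_add, map_pow, hcx]
      ring
    rw [h3]
    exact add_nonneg h1 h2

theorem no_refutation (T : Tournament V) (k d : ℕ)
    (hk : Real.sqrt 2 * (Real.sqrt d + 1) + Real.sqrt d ≤ Real.sqrt k) :
    ¬ HasSoSRefutation T k d := by
  classical
  rintro ⟨σ₀, τ, σ, q, h0, hτ, hσ, -, hid⟩
  obtain ⟨y, hy0, hy1, hy2⟩ := exists_fractional T
  set s := Real.sqrt d with hs
  have hs0 : 0 ≤ s := Real.sqrt_nonneg _
  set M : ℝ := (Real.sqrt 2 * (s + 1)) ^ 2 with hM
  have hM2 : M = 2 * (s + 1) ^ 2 := by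
    rw [hM, mul_pow, Real.sq_sqrt (by norm_num)]
  have hM0 : 0 ≤ M := sq_nonneg _
  let ρ : V → ℝ := fun v => min 1 (M * y v)
  have hρ0 : ∀ v, 0 ≤ ρ v := fun v => le_min zero_le_one (mul_nonneg hM0 (hy0 v))
  have hρ1 : ∀ v, ρ v ≤ 1 := fun v => min_le_left _ _
  have hρM : ∑ v, ρ v ≤ M := by
    calc ∑ v, ρ v ≤ ∑ v, M * y v := Finset.sum_le_sum fun v _ => min_le_right _ _
      _ = M * ∑ v, y v := by rw [Finset.mul_sum]
      _ ≤ M * 1 := mul_le_mul_of_nonneg_left hy1 hM0
      _ = M := mul_one M
  -- the empty constraint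
  have e0 : 0 ≤ Ex ρ (fun x => ev x σ₀ * 1) := by
    refine IsSoS_pos ρ d (fun _ => 1) ?_ σ₀ h0
    intro c hc
    exact Ex_nonneg hρ0 hρ1 _ fun x _ => by positivity
  -- the size constraint
  have e1 : 0 ≤ Ex ρ (fun x => ev x τ * ((k : ℝ) - ∑ v, val (x v))) := by
    refine IsSoS_pos ρ d (fun x => (k : ℝ) - ∑ v, val (x v)) ?_ τ hτ
    intro c hc
    have h1 := upper_bound hρ0 hρ1 c d hc (Real.sqrt 2 * (s + 1)) (by positivity) hρM
    have h2 : (Real.sqrt 2 * (s + 1) + s) ^ 2 ≤ k := by
      have h3 : (Real.sqrt 2 * (s + 1) + s) ^ 2 ≤ (Real.sqrt k) ^ 2 :=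
        pow_le_pow_left₀ (by positivity) hk 2
      rwa [Real.sq_sqrt (by positivity)] at h3
    have hN := norm_nonneg' hρ0 hρ1 c
    have h4 : Ex ρ (fun x => ((k : ℝ) - ∑ v, val (x v)) * FF ρ c x ^ 2) =
        k * Ex ρ (fun x => FF ρ c x ^ 2) -
        Ex ρ (fun x => (∑ v, val (x v)) * FF ρ c x ^ 2) := by
      rw [← Ex_mul, ← sub_eq_zero]
      rw [show Ex ρ (fun x => (∑ v, val (x v)) * FF ρ c x ^ 2) =
        - Ex ρ (fun x => (-1) * ((∑ v, val (x v)) * FF ρ c x ^ 2)) by rw [Ex_mul]; ring]
      rw [sub_neg_eq_add, ← Ex_add, sub_eq_zero]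
      congr 1
      funext x
      ring
    rw [h4]
    have h5 : (Real.sqrt 2 * (s + 1) + s) ^ 2 * Ex ρ (fun x => FF ρ c x ^ 2) ≤
        k * Ex ρ (fun x => FF ρ c x ^ 2) := mul_le_mul_of_nonneg_right h2 hN
    linarith
  -- the domination constraints
  have e2 : ∀ w, 0 ≤ Ex ρ (fun x => ev x (σ w) * ((∑ v ∈ inN T w, val (x v)) - 1)) := by
    intro w
    refine IsSoS_pos ρ d (fun x => (∑ v ∈ inN T w, val (x v)) - 1) ?_ (σ w) (hσ w)
    intro c hc
    by_cases hone : ∃ u ∈ inN T w, ρ u = 1
    · obtain ⟨u, hu, hu1⟩ := hone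
      refine Ex_nonneg hρ0 hρ1 _ fun x hx => ?_
      have hxu : x u = true := by
        by_contra hxu
        apply hx
        unfold wt
        apply Finset.prod_eq_zero (Finset.mem_univ u)
        simp [hxu, hu1]
      have h1 : 1 ≤ ∑ v ∈ inN T w, val (x v) := by
        have h2 : val (x u) ≤ ∑ v ∈ inN T w, val (x v) :=
          Finset.single_le_sum (f := fun v => val (x v))
            (fun v _ => by unfold val; split_ifs <;> norm_num) hu
        rw [hxu] at h2
        simpa [val] using h2
      have : 0 ≤ (∑ v ∈ inN T w, val (x v)) - 1 := by linarith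
      positivity
    · push Not at hone
      have h1 : (s + 1) ^ 2 ≤ ∑ u ∈ inN T w, ρ u := by
        have h2 : ∑ u ∈ inN T w, ρ u = M * ∑ u ∈ inN T w, y u := by
          rw [Finset.mul_sum]
          refine Finset.sum_congr rfl fun u hu => ?_
          have h3 := hone u hu
          rcases min_choice (1 : ℝ) (M * y u) with h | h
          · exact absurd h h3
          · exact h
        rw [h2, hM2]
        have := hy2 w
        nlinarith [sq_nonneg (s + 1)]
      have h2 := lower_bound hρ0 hρ1 c d hc (inN T w) h1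
      have h4 : Ex ρ (fun x => ((∑ v ∈ inN T w, val (x v)) - 1) * FF ρ c x ^ 2) =
          Ex ρ (fun x => (∑ v ∈ inN T w, val (x v)) * FF ρ c x ^ 2) +
          (-1) * Ex ρ (fun x => FF ρ c x ^ 2) := by
        rw [← Ex_mul, ← Ex_add]
        congr 1
        funext x
        ring
      rw [h4]
      linarith
  -- combine
  have hpt : ∀ x : V → Bool, ev x σ₀ * 1 + ev x τ * ((k : ℝ) - ∑ v, val (x v)) +
      ∑ w, ev x (σ w) * ((∑ v ∈ inN T w, val (x v)) - 1) = -1 := by
    intro x
    have h1 := congrArg (ev x) hid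
    have hq : ev x (∑ v, q v * (X v ^ 2 - X v)) = 0 := by
      rw [map_sum]
      refine Finset.sum_eq_zero fun v _ => ?_
      rw [map_mul, map_sub, map_pow]
      have : ev x (X v) = val (x v) := by simp [ev]
      rw [this, val_pow _ 2 (by norm_num), sub_self, mul_zero]
    have hsize : ev x (sizePoly V k) = (k : ℝ) - ∑ v, val (x v) := by
      simp [sizePoly, ev]
    have hdom : ∀ w, ev x (domPoly T w) = (∑ v ∈ inN T w, val (x v)) - 1 := by
      intro w
      have h8 : ev x (domPoly T w) = (∑ v ∈ inN T w, ev x (X v)) - 1 := by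
        unfold domPoly inN
        rw [map_sub, map_one, map_sum]
        congr 1
        refine Finset.sum_congr ?_ fun _ _ => rfl
        ext v
        simp
      rw [h8]
      simp [ev]
    rw [map_add, map_add, map_add, hq, add_zero, map_mul, hsize, map_sum] at h1
    simp_rw [map_mul, hdom] at h1
    rw [mul_one, h1]
    simp
  have hE : Ex ρ (fun x => ev x σ₀ * 1) + Ex ρ (fun x => ev x τ * ((k : ℝ) - ∑ v, val (x v))) +
      ∑ w, Ex ρ (fun x => ev x (σ w) * ((∑ v ∈ inN T w, val (x v)) - 1)) = -1 := by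
    rw [← Ex_sum, ← Ex_add, ← Ex_add]
    have h6 : Ex ρ (fun _ => (-1 : ℝ)) = -1 := by
      have := Ex_mul ρ (-1) (fun _ => 1)
      rw [Ex_one] at this
      simpa using this
    rw [← h6]
    congr 1
    funext x
    exact hpt x
  have h7 : 0 ≤ ∑ w, Ex ρ (fun x => ev x (σ w) * ((∑ v ∈ inN T w, val (x v)) - 1)) :=
    Finset.sum_nonneg fun w _ => e2 w
  linarith

end Pool.Agent.Lib.MP_66cd2e_lc
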