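import Pool.Agent.Lib.MP_66cd2e_lc.Lower

/-! The upper bound: refutations of degree linear in the domination number. -/

set_option autoImplicit false
set_option linter.unusedSectionVars false

namespace Pool.Agent.Lib.MP_66cd2e_lc

open Finset MvPolynomial

variable {V : Type} [Fintype V] [DecidableEq V]

theorem IsSoS.zero (d : ℕ) : IsSoS d (0 : MvPolynomial V ℝ) := ⟨[], by simp, by simp⟩

theorem IsSoS.add {d : ℕ} {a b : MvPolynomial V ℝ} (ha : IsSoS d a) (hb : IsSoS d b) :
    IsSoS d (a + b) := by
  obtain ⟨l, hl, rfl⟩ := ha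
  obtain ⟨m, hm, rfl⟩ := hb
  refine ⟨l ++ m, ?_, by simp⟩
  intro p hp
  rcases List.mem_append.1 hp with h | h
  · exact hl p h
  · exact hm p h

theorem IsSoS.sq {d : ℕ} {p : MvPolynomial V ℝ} (hp : p.totalDegree ≤ d) : IsSoS d (p ^ 2) :=
  ⟨[p], by simpa using hp, by simp⟩

/-- `g` is, on the cube, a combination of the constraints with sums of squares. -/
def Cert (T : Tournament V) (k d : ℕ) (g : (V → Bool) → ℝ) : Prop :=
  ∃ (σ₀ τ : MvPolynomial V ℝ) (σ : V → MvPolynomial V ℝ),
    IsSoS d σ₀ ∧ IsSoS d τ ∧ (∀ w, IsSoS d (σ w)) ∧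
    ∀ x, ev x σ₀ + ev x τ * ((k : ℝ) - ∑ v, val (x v)) +
      ∑ w, ev x (σ w) * ((∑ v ∈ inN T w, val (x v)) - 1) = g x

theorem Cert.zero (T : Tournament V) (k d : ℕ) : Cert T k d (fun _ => 0) :=
  ⟨0, 0, fun _ => 0, .zero d, .zero d, fun _ => .zero d, by simp⟩

theorem Cert.add {T : Tournament V} {k d : ℕ} {g h : (V → Bool) → ℝ} (hg : Cert T k d g)
    (hh : Cert T k d h) : Cert T k d (fun x => g x + h x) := by
  obtain ⟨a, b, c, ha, hb, hc, hx⟩ := hg
  obtain ⟨a', b', c', ha', hb', hc', hx'⟩ := hh
  refine ⟨a + a', b + b', fun w => c w + c' w, ha.add ha', hb.add hb',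
    fun w => (hc w).add (hc' w), fun x => ?_⟩
  change _ = g x + h x
  rw [← hx x, ← hx' x]
  simp only [map_add, add_mul, Finset.sum_add_distrib]
  ring

theorem Cert.sum {T : Tournament V} {k d : ℕ} {ι : Type} (s : Finset ι)
    (g : ι → (V → Bool) → ℝ) (hg : ∀ i ∈ s, Cert T k d (g i)) :
    Cert T k d (fun x => ∑ i ∈ s, g i x) := by
  classical
  induction s using Finset.induction_on with
  | empty => simpa using Cert.zero T k d
  | insert i s hi ih =>
    simp_rw [Finset.sum_insert hi]
    exact (hg i (by simp)).add (ih fun j hj => hg j (by simp [hj]))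

theorem Cert.of_sq {T : Tournament V} {k d : ℕ} (p : MvPolynomial V ℝ)
    (hp : p.totalDegree ≤ d) : Cert T k d (fun x => ev x p ^ 2) :=
  ⟨p ^ 2, 0, fun _ => 0, .sq hp, .zero d, fun _ => .zero d, by simp⟩

theorem Cert.of_size {T : Tournament V} {k d : ℕ} (p : MvPolynomial V ℝ)
    (hp : p.totalDegree ≤ d) :
    Cert T k d (fun x => ev x p ^ 2 * ((k : ℝ) - ∑ v, val (x v))) :=
  ⟨0, p ^ 2, fun _ => 0, .zero d, .sq hp, fun _ => .zero d, by simp⟩

theorem Cert.of_dom {T : Tournament V} {k d : ℕ} (p : MvPolynomial V ℝ)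
    (hp : p.totalDegree ≤ d) (w : V) :
    Cert T k d (fun x => ev x p ^ 2 * ((∑ v ∈ inN T w, val (x v)) - 1)) := by
  refine ⟨0, 0, fun u => if u = w then p ^ 2 else 0, .zero d, .zero d, fun u => ?_, fun x => ?_⟩
  · by_cases h : u = w
    · simp only [h, if_true]; exact .sq hp
    · simp only [h, if_false]; exact .zero d
  · have h1 : ∑ u, ev x (if u = w then p ^ 2 else 0) * ((∑ v ∈ inN T u, val (x v)) - 1) =
        ev x p ^ 2 * ((∑ v ∈ inN T w, val (x v)) - 1) := by
      refine (Finset.sum_eq_single w ?_ ?_).trans ?_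
      · intro u _ hu
        simp [hu]
      · intro h
        exact absurd (Finset.mem_univ w) h
      · simp
    simp only [map_zero, zero_mul, zero_add]
    exact h1

/-- value of the monomial of `J` -/
noncomputable def mval (J : Finset V) (x : V → Bool) : ℝ := ∏ v ∈ J, val (x v)

/-- the monomial of `J` -/
noncomputable def mon (J : Finset V) : MvPolynomial V ℝ := ∏ v ∈ J, X v

theorem ev_mon (J : Finset V) (x : V → Bool) : ev x (mon J) = mval J x := by
  simp [mon, mval, ev]

theorem mon_degree (J : Finset V) : (mon J : MvPolynomial V ℝ).totalDegree ≤ J.card := by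
  unfold mon
  refine (totalDegree_finsetProd J _).trans ?_
  simp [totalDegree_X]

theorem mval_sq (J : Finset V) (x : V → Bool) : mval J x ^ 2 = mval J x := by
  unfold mval
  rw [← Finset.prod_pow]
  exact Finset.prod_congr rfl fun v _ => val_pow _ 2 (by norm_num)

theorem mval_insert {J : Finset V} {v : V} (hv : v ∉ J) (x : V → Bool) :
    mval (insert v J) x = val (x v) * mval J x := by
  unfold mval
  rw [Finset.prod_insert hv]

theorem mval_mul {J : Finset V} {v : V} (hv : v ∈ J) (x : V → Bool) :
    mval J x * val (x v) = mval J x := by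
  unfold mval
  rw [← Finset.mul_prod_erase J _ hv]
  have : val (x v) * val (x v) = val (x v) := by
    have := val_pow (x v) 2 (by norm_num)
    rwa [sq] at this
  calc (val (x v) * ∏ u ∈ J.erase v, val (x u)) * val (x v)
      = (val (x v) * val (x v)) * ∏ u ∈ J.erase v, val (x u) := by ring
    _ = _ := by rw [this]

theorem cert_mon (T : Tournament V) (k : ℕ)
    (hγ : ∀ J : Finset V, J.card ≤ k → ¬ IsDominating T J) (n : ℕ) :
    ∀ J : Finset V, J.card + n = k → Cert T k (k + 1) (fun x => - mval J x) := by
  induction n with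
  | zero =>
    intro J hJ
    have h1 := hγ J (by omega)
    unfold IsDominating at h1
    push Not at h1
    obtain ⟨w, hw, hwJ⟩ := h1
    have hd : (mon J : MvPolynomial V ℝ).totalDegree ≤ k + 1 :=
      (mon_degree J).trans (by omega)
    have c1 := Cert.of_dom (T := T) (k := k) (mon J) hd w
    have c2 := Cert.of_size (T := T) (k := k) (mon J) hd
    have c3 := Cert.sum (T := T) (k := k) (d := k + 1) (univ \ (J ∪ inN T w))
      (fun v x => ev x (mon (insert v J)) ^ 2) (fun v hv => by
        refine Cert.of_sq _ ((mon_degree _).trans ?_)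
        have := Finset.card_insert_le v J
        omega)
    have c := (c1.add c2).add c3
    convert c using 1
    funext x
    simp only [ev_mon, mval_sq]
    -- sum over J, inN, rest
    have hdisj : Disjoint J (inN T w) := by
      rw [Finset.disjoint_left]
      intro v hv hv'
      rcases (mem_inN T w v).1 hv' with h | h
      · subst h; exact hw hv
      · exact hwJ v hv h
    have h2 : ∑ v, val (x v) = ∑ v ∈ univ \ (J ∪ inN T w), val (x v) +
        (∑ v ∈ J, val (x v) + ∑ v ∈ inN T w, val (x v)) := by
      rw [← Finset.sum_union hdisj, Finset.sum_sdiff (Finset.subset_univ _)]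
    have h3 : ∑ v ∈ univ \ (J ∪ inN T w), mval (insert v J) x =
        mval J x * ∑ v ∈ univ \ (J ∪ inN T w), val (x v) := by
      rw [Finset.mul_sum]
      refine Finset.sum_congr rfl fun v hv => ?_
      have : v ∉ J := by
        intro h
        rw [Finset.mem_sdiff] at hv
        exact hv.2 (Finset.mem_union_left _ h)
      rw [mval_insert this]
      ring
    have h4 : mval J x * ∑ v ∈ J, val (x v) = k * mval J x := by
      rw [Finset.mul_sum, Finset.sum_congr rfl (fun v hv => mval_mul hv x), Finset.sum_const,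
        nsmul_eq_mul]
      have : J.card = k := by omega
      rw [this]
    rw [h3, h2]
    linear_combination h4
  | succ n ih =>
    intro J hJ
    have h1 := hγ J (by omega)
    unfold IsDominating at h1
    push Not at h1
    obtain ⟨w, hw, hwJ⟩ := h1
    have hd : (mon J : MvPolynomial V ℝ).totalDegree ≤ k + 1 :=
      (mon_degree J).trans (by omega)
    have c1 := Cert.of_dom (T := T) (k := k) (mon J) hd w
    have hnot : ∀ v ∈ inN T w, v ∉ J := by
      intro v hv' hv
      rcases (mem_inN T w v).1 hv' with h | h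
      · subst h; exact hw hv
      · exact hwJ v hv h
    have c2 := Cert.sum (T := T) (k := k) (d := k + 1) (inN T w)
      (fun v x => - mval (insert v J) x) (fun v hv => by
        apply ih
        rw [Finset.card_insert_of_notMem (hnot v hv)]
        omega)
    have c := c1.add c2
    convert c using 1
    funext x
    simp only [ev_mon, mval_sq]
    have h3 : ∑ v ∈ inN T w, - mval (insert v J) x =
        - (mval J x * ∑ v ∈ inN T w, val (x v)) := by
      rw [Finset.mul_sum, ← Finset.sum_neg_distrib]
      refine Finset.sum_congr rfl fun v hv => ?_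
      rw [mval_insert (hnot v hv)]
      ring
    rw [h3]
    ring

theorem IsSoS.degree {d : ℕ} {σ : MvPolynomial V ℝ} (h : IsSoS d σ) :
    σ.totalDegree ≤ 2 * d := by
  obtain ⟨l, hl, rfl⟩ := h
  induction l with
  | nil => simp
  | cons p l ih =>
    rw [List.map_cons, List.sum_cons]
    refine (totalDegree_add _ _).trans (max_le ?_ (ih fun q hq => hl q (by simp [hq])))
    refine (totalDegree_pow _ _).trans ?_
    have := hl p (by simp)
    omega

theorem sizePoly_degree (k : ℕ) : (sizePoly V k).totalDegree ≤ 1 := by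
  unfold sizePoly
  refine (totalDegree_sub _ _).trans (max_le ?_ ?_)
  · rw [totalDegree_C]; exact Nat.zero_le _
  · refine totalDegree_finsetSum_le fun v _ => ?_
    simp [totalDegree_X]

theorem domPoly_degree (T : Tournament V) (w : V) : (domPoly T w).totalDegree ≤ 1 := by
  unfold domPoly
  refine (totalDegree_sub _ _).trans (max_le ?_ ?_)
  · refine totalDegree_finsetSum_le fun v _ => ?_
    simp [totalDegree_X]
  · simp

theorem ev_size (k : ℕ) (x : V → Bool) : ev x (sizePoly V k) = (k : ℝ) - ∑ v, val (x v) := by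
  simp [sizePoly, ev]

theorem ev_dom (T : Tournament V) (w : V) (x : V → Bool) :
    ev x (domPoly T w) = (∑ v ∈ inN T w, val (x v)) - 1 := by
  have h8 : ev x (domPoly T w) = (∑ v ∈ inN T w, ev x (X v)) - 1 := by
    unfold domPoly inN
    rw [map_sub, map_one, map_sum]
    congr 1
    refine Finset.sum_congr ?_ fun _ _ => rfl
    ext v
    simp
  rw [h8]
  simp [ev]

theorem refutation_of_cert (T : Tournament V) (k d : ℕ) (h : Cert T k d (fun _ => -1)) :
    HasSoSRefutation T k d := by
  classical
  obtain ⟨σ₀, τ, σ, h0, hτ, hσ, hx⟩ := h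
  set f : MvPolynomial V ℝ := -1 - (σ₀ + τ * sizePoly V k + ∑ w, σ w * domPoly T w) with hf
  have hfdeg : f.totalDegree ≤ 2 * d + 1 := by
    rw [hf]
    refine (totalDegree_sub _ _).trans (max_le ?_ ?_)
    · rw [totalDegree_neg]; simp
    refine (totalDegree_add _ _).trans (max_le ?_ ?_)
    · refine (totalDegree_add _ _).trans (max_le (h0.degree.trans (by omega)) ?_)
      refine (totalDegree_mul _ _).trans ?_
      have h1 := hτ.degree
      have h2 := sizePoly_degree (V := V) k
      omega
    · refine totalDegree_finsetSum_le fun w _ => ?_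
      refine (totalDegree_mul _ _).trans ?_
      have h1 := (hσ w).degree
      have h2 := domPoly_degree T w
      omega
  have hvan : ∀ y : V → ℝ, (∀ v, y v ∈ ({0, 1} : Finset ℝ)) → eval y f = 0 := by
    intro y hy
    let x : V → Bool := fun v => decide (y v = 1)
    have hxy : (fun v => val (x v)) = y := by
      funext v
      have := hy v
      simp only [Finset.mem_insert, Finset.mem_singleton] at this
      rcases this with h | h
      · simp [x, h, val]
      · simp [x, h, val]
    have h1 : eval y f = ev x f := by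
      unfold ev
      rw [hxy]
    rw [h1, hf, map_sub, map_add, map_add, map_mul, map_sum]
    simp_rw [map_mul, ev_size, ev_dom]
    rw [hx x]
    simp
  obtain ⟨h, hh1, hh2⟩ := combinatorial_nullstellensatz_exists_linearCombination
    (fun _ : V => ({0, 1} : Finset ℝ)) (fun _ => ⟨0, by simp⟩) f hvan
  have hprod : ∀ v : V, ∏ r ∈ ({0, 1} : Finset ℝ), (X v - C r : MvPolynomial V ℝ) =
      X v ^ 2 - X v := by
    intro v
    rw [Finset.prod_insert (by simp), Finset.prod_singleton]
    simp
    ring
  refine ⟨σ₀, τ, σ, fun v => h v, h0, hτ, hσ, ?_, ?_⟩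
  · intro v
    have := hh1 v
    rw [hprod v] at this
    rw [mul_comm]
    exact this.trans hfdeg
  · have h3 : f = ∑ v, h v * (X v ^ 2 - X v) := by
      rw [hh2, Finsupp.linearCombination_apply, Finsupp.sum_fintype]
      · refine Finset.sum_congr rfl fun v _ => ?_
        rw [hprod v, smul_eq_mul]
      · intro v
        simp
    rw [← h3, hf]
    ring

theorem exists_refutation (T : Tournament V) (k : ℕ) (hk : k < domNumber T) :
    HasSoSRefutation T k (k + 1) := by
  have hγ : ∀ J : Finset V, J.card ≤ k → ¬ IsDominating T J := by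
    intro J hJ hdom
    have : domNumber T ≤ J.card := Nat.sInf_le ⟨J, hdom, rfl⟩
    omega
  apply refutation_of_cert
  have := cert_mon T k hγ k ∅ (by simp)
  simpa [mval] using this

end Pool.Agent.Lib.MP_66cd2e_lc
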